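import Pool.Agent.Helper84.TC8.FOL

/-!
TC8, modules CNT and CNT0: counting paths.
-/

set_option autoImplicit false

namespace Pool.Agent.Helper84.TC8

open Finset
open scoped Classical
open Pool.Agent.Helper86.TC8

variable {V : Type}

/-- sums over words of length `a + b` -/
theorem sum_bl_add {M : Type} [AddCommMonoid M] (b : ℕ) : ∀ (a : ℕ) (F : List Bool → M),
    ∑ l ∈ bl (a + b), F l = ∑ l ∈ bl a, ∑ l' ∈ bl b, F (l ++ l') := by
  intro a
  induction a with
  | zero => intro F; simp [bl]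
  | succ a ih =>
    intro F
    rw [show a + 1 + b = (a + b) + 1 by ring, sum_bl_succ, sum_bl_succ, ih]
    refine Finset.sum_congr rfl fun l _ => ?_
    rw [Finset.sum_add_distrib]
    rfl

theorem walkF_append (G : CG V) : ∀ (l l' : List Bool) (h : WS V),
    walkF G (l ++ l') h = walkF G l' (walkF G l h) := by
  intro l l'
  induction l with
  | nil => intro h; rfl
  | cons β l ih => intro h; exact ih _

theorem avoidF_append (G : CG V) (Z : V → Bool) : ∀ (l l' : List Bool) (h : WS V),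
    avoidF G Z (l ++ l') h ↔ avoidF G Z l h ∧ avoidF G Z l' (walkF G l h) := by
  intro l l'
  induction l with
  | nil =>
    intro h
    show avoidF G Z l' h ↔ Z h.2 = false ∧ avoidF G Z l' h
    cases l' with
    | nil => simp [avoidF]
    | cons β l' => simp only [avoidF]; tauto
  | cons β l ih =>
    intro h
    simp only [List.cons_append, avoidF, walkF, ih, and_assoc]

/-! ### the reversal -/

theorem fwd_bwd (G : CG V) (β : Bool) (g : WS V) :
    fwd G (if g.1 then !β else β) (bwd G β g) = g := by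
  obtain ⟨t, y⟩ := g
  cases t <;> cases β <;> simp [fwd, bwd, G.nu_nu, G.bw_fw]

theorem bwd_fwd (G : CG V) (β : Bool) (h : WS V) :
    bwd G (if (fwd G β h).1 then !β else β) (fwd G β h) = h := by
  obtain ⟨t, y⟩ := h
  cases t <;> cases β <;> simp [fwd, bwd, G.nu_nu, G.fw_bw]

/-- a backward path is a forward path -/
theorem rev_path (G : CG V) (Z : V → Bool) : ∀ (l' : List Bool) (g : WS V),
    ∃ l : List Bool, l.length = l'.length ∧ walkF G l (walkB G l' g) = g ∧
      (avoidF G Z l (walkB G l' g) ↔ avoidB G Z l' g) := by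
  intro l'
  induction l' with
  | nil => intro g; exact ⟨[], rfl, rfl, Iff.rfl⟩
  | cons β l' ih =>
    intro g
    obtain ⟨l, h1, h2, h3⟩ := ih (bwd G β g)
    refine ⟨l ++ [if g.1 then !β else β], by simp [h1], ?_, ?_⟩
    · rw [walkF_append]
      show fwd G _ (walkF G l (walkB G l' (bwd G β g))) = g
      rw [h2, fwd_bwd]
    · rw [avoidF_append]
      show avoidF G Z l (walkB G l' (bwd G β g)) ∧
        (Z (walkF G l (walkB G l' (bwd G β g))).2 = false ∧
          Z (fwd G _ (walkF G l (walkB G l' (bwd G β g)))).2 = false) ↔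
        (Z g.2 = false ∧ avoidB G Z l' (bwd G β g))
      rw [h2, fwd_bwd, h3]
      have h0 : avoidB G Z l' (bwd G β g) → Z (bwd G β g).2 = false := by
        intro h
        cases l' with
        | nil => exact h
        | cons b l' => exact h.1
      constructor
      · rintro ⟨a1, -, a2⟩; exact ⟨a2, a1⟩
      · rintro ⟨a1, a2⟩; exact ⟨a2, h0 a2, a1⟩

/-- summation by the first step -/
theorem sum_fwd [Fintype V] (G : CG V) (f : WS V → ℝ) :
    ∑ q : WS V, (f (fwd G true q) + f (fwd G false q)) = ∑ q : WS V, (f q + f q) := by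
  have h1 : ∑ q : WS V, (f (fwd G true q) + f (fwd G false q))
      = ∑ p : WS V × Bool, f (fwd G p.2 p.1) := by
    rw [Fintype.sum_prod_type (fun p : WS V × Bool => f (fwd G p.2 p.1))]
    refine Finset.sum_congr rfl fun q _ => ?_
    rw [Fintype.sum_bool]
  have h2 : ∑ q : WS V, (f q + f q) = ∑ p : WS V × Bool, f p.1 := by
    rw [Fintype.sum_prod_type (fun p : WS V × Bool => f p.1)]
    refine Finset.sum_congr rfl fun q _ => ?_
    rw [Fintype.sum_bool]
  rw [h1, h2]
  refine Finset.sum_bij' (fun p _ => (fwd G p.2 p.1, if (fwd G p.2 p.1).1 then !p.2 else p.2))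
    (fun p _ => (bwd G p.2 p.1, if p.1.1 then !p.2 else p.2)) (fun _ _ => Finset.mem_univ _)
    (fun _ _ => Finset.mem_univ _) ?_ ?_ (fun _ _ => rfl)
  · rintro ⟨h, β⟩ -
    have := bwd_fwd G β h
    refine Prod.ext this ?_
    show (if (fwd G β h).1 then !(if (fwd G β h).1 then !β else β)
      else (if (fwd G β h).1 then !β else β)) = β
    cases (fwd G β h).1 <;> simp
  · rintro ⟨g, β⟩ -
    have := fwd_bwd G β g
    refine Prod.ext this ?_
    show (if (fwd G (if g.1 then !β else β) (bwd G β g)).1 then !(if g.1 then !β else β)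
      else (if g.1 then !β else β)) = β
    rw [this]
    cases g.1 <;> simp

/-- all paths: summation -/
theorem sum_walk [Fintype V] (G : CG V) (f : WS V → ℝ) : ∀ k : ℕ,
    ∑ q : WS V, ∑ l ∈ bl k, f (walkF G l q) = 2 ^ k * ∑ q : WS V, f q := by
  intro k
  induction k with
  | zero => simp [bl, walkF]
  | succ k ih =>
    have h1 : ∀ q : WS V, ∑ l ∈ bl (k + 1), f (walkF G l q)
        = (∑ l ∈ bl k, f (walkF G l (fwd G true q))) + ∑ l ∈ bl k, f (walkF G l (fwd G false q)) := by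
      intro q
      rw [sum_bl_succ, Finset.sum_add_distrib]
      rfl
    rw [Finset.sum_congr rfl fun q _ => h1 q,
      sum_fwd G (fun q => ∑ l ∈ bl k, f (walkF G l q)), Finset.sum_add_distrib, ih]
    ring

theorem cnt0 [Fintype V] (G : CG V) (h : WS V) (k : ℕ) :
    ∑ q : WS V, ∑ l ∈ bl k, (if walkF G l q = h then (1 : ℝ) else 0) = 2 ^ k := by
  rw [sum_walk G (fun q => if q = h then (1 : ℝ) else 0)]
  simp

theorem card_sum {α : Type} [Fintype α] (k : ℕ) (p : α × List Bool → Prop) [DecidablePred p] :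
    (((univ ×ˢ bl k).filter p).card : ℝ)
      = ∑ q : α, ∑ l ∈ bl k, (if p (q, l) then (1 : ℝ) else 0) := by
  rw [Finset.card_filter, Nat.cast_sum, Finset.sum_product]
  simp

theorem st_CNT0 : ST_CNT0 := by
  intro V _ G h k
  have h1 := cnt0 G h k
  have h2 := card_sum k (fun q : WS V × List Bool => walkF G q.2 q.1 = h)
  have h3 : (((univ ×ˢ bl k).filter fun q : WS V × List Bool => walkF G q.2 q.1 = h).card : ℝ)
      = 2 ^ k := h2.trans h1
  exact_mod_cast h3

/-! ### forward count -/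

section fwdcount

variable (G : CG V) (Z : V → Bool) (D1 : ℕ)

theorem fwd_block (hF : ∀ h : WS V, ∃ l : List Bool, l.length = D1 ∧ ¬ avoidF G Z l h) (h : WS V) :
    ∑ l ∈ bl D1, (if avoidF G Z l h then (1 : ℝ) else 0) ≤ 2 ^ D1 * (1 - 1 / 2 ^ D1) := by
  obtain ⟨l0, h1, h2⟩ := hF h
  have hm : l0 ∈ bl D1 := (mem_bl _ _).2 h1
  rw [← Finset.add_sum_erase _ _ hm, if_neg h2, zero_add]
  calc ∑ l ∈ (bl D1).erase l0, (if avoidF G Z l h then (1 : ℝ) else 0)
      ≤ ∑ l ∈ (bl D1).erase l0, (1 : ℝ) := by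
        refine Finset.sum_le_sum fun l _ => ?_
        split_ifs <;> norm_num
    _ = 2 ^ D1 - 1 := by
        rw [Finset.sum_const, Finset.card_erase_of_mem hm, card_bl, nsmul_eq_mul, mul_one,
          Nat.cast_sub Nat.one_le_two_pow]
        norm_num
    _ = 2 ^ D1 * (1 - 1 / 2 ^ D1) := by
        have : (2 : ℝ) ^ D1 ≠ 0 := by positivity
        field_simp

theorem theta_nonneg : (0 : ℝ) ≤ 1 - 1 / 2 ^ D1 := by
  have h1 : (1 : ℝ) ≤ 2 ^ D1 := one_le_pow₀ (by norm_num)
  rw [sub_nonneg, div_le_one (by positivity)]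
  exact h1

theorem fwd_count (h1 : 1 ≤ D1)
    (hF : ∀ h : WS V, ∃ l : List Bool, l.length = D1 ∧ ¬ avoidF G Z l h) :
    ∀ (b : ℕ) (h : WS V), ∑ l ∈ bl b, (if avoidF G Z l h then (1 : ℝ) else 0)
      ≤ 2 ^ b * (1 - 1 / 2 ^ D1) ^ (b / D1) := by
  intro b
  induction b using Nat.strong_induction_on with
  | _ b ih =>
    intro h
    rcases lt_or_ge b D1 with hb | hb
    · rw [Nat.div_eq_of_lt hb, pow_zero, mul_one]
      calc ∑ l ∈ bl b, (if avoidF G Z l h then (1 : ℝ) else 0)
          ≤ ∑ l ∈ bl b, (1 : ℝ) := by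
            refine Finset.sum_le_sum fun l _ => ?_
            split_ifs <;> norm_num
        _ = 2 ^ b := by rw [Finset.sum_const, card_bl]; simp
    · obtain ⟨c, rfl⟩ := Nat.exists_eq_add_of_le hb
      rw [sum_bl_add]
      have hdiv : (D1 + c) / D1 = c / D1 + 1 := by
        rw [Nat.add_div_left _ (by omega)]
      rw [hdiv, pow_succ, pow_add]
      have hθ := theta_nonneg D1
      calc ∑ l ∈ bl D1, ∑ l' ∈ bl c, (if avoidF G Z (l ++ l') h then (1 : ℝ) else 0)
          = ∑ l ∈ bl D1, (if avoidF G Z l h then (1 : ℝ) else 0) *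
              ∑ l' ∈ bl c, (if avoidF G Z l' (walkF G l h) then (1 : ℝ) else 0) := by
            refine Finset.sum_congr rfl fun l _ => ?_
            rw [Finset.mul_sum]
            refine Finset.sum_congr rfl fun l' _ => ?_
            by_cases a1 : avoidF G Z l h <;> simp [avoidF_append, a1]
        _ ≤ ∑ l ∈ bl D1, (if avoidF G Z l h then (1 : ℝ) else 0) *
              (2 ^ c * (1 - 1 / 2 ^ D1) ^ (c / D1)) := by
            refine Finset.sum_le_sum fun l _ => ?_
            refine mul_le_mul_of_nonneg_left (ih c (by omega) _) ?_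
            split_ifs <;> norm_num
        _ = (∑ l ∈ bl D1, (if avoidF G Z l h then (1 : ℝ) else 0)) *
              (2 ^ c * (1 - 1 / 2 ^ D1) ^ (c / D1)) := by rw [Finset.sum_mul]
        _ ≤ (2 ^ D1 * (1 - 1 / 2 ^ D1)) * (2 ^ c * (1 - 1 / 2 ^ D1) ^ (c / D1)) := by
            refine mul_le_mul_of_nonneg_right (fwd_block G Z D1 hF h) ?_
            have := pow_nonneg hθ (c / D1)
            positivity
        _ = 2 ^ D1 * 2 ^ c * ((1 - 1 / 2 ^ D1) ^ (c / D1) * (1 - 1 / 2 ^ D1)) := by ring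

/-! ### backward count -/

variable [Fintype V]

/-- number of avoiding paths of length `k` which end at `h` -/
noncomputable def cb (k : ℕ) (h : WS V) : ℝ :=
  ∑ q : WS V, ∑ l ∈ bl k, (if avoidF G Z l q ∧ walkF G l q = h then (1 : ℝ) else 0)

theorem cb_le (k : ℕ) (h : WS V) : cb G Z k h ≤ 2 ^ k := by
  rw [← cnt0 G h k]
  refine Finset.sum_le_sum fun q _ => Finset.sum_le_sum fun l _ => ?_
  by_cases h1 : walkF G l q = h <;> by_cases h2 : avoidF G Z l q <;> simp [h1, h2]

theorem cb_nonneg (k : ℕ) (h : WS V) : 0 ≤ cb G Z k h := by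
  refine Finset.sum_nonneg fun q _ => Finset.sum_nonneg fun l _ => ?_
  split_ifs <;> norm_num

theorem cb_block (hB : ∀ h : WS V, ∃ l : List Bool, l.length = D1 ∧ ¬ avoidB G Z l h) (h : WS V) :
    cb G Z D1 h ≤ 2 ^ D1 * (1 - 1 / 2 ^ D1) := by
  obtain ⟨l', e1, e2⟩ := hB h
  obtain ⟨l0, h1, h2, h3⟩ := rev_path G Z l' h
  rw [e1] at h1
  rw [← h3] at e2
  have e : cb G Z D1 h + 1 ≤ 2 ^ D1 := by
    rw [← cnt0 G h D1]
    have : cb G Z D1 h + ∑ q : WS V, ∑ l ∈ bl D1,
        (if q = walkB G l' h ∧ l = l0 then (1 : ℝ) else 0) ≤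
        ∑ q : WS V, ∑ l ∈ bl D1, (if walkF G l q = h then (1 : ℝ) else 0) := by
      unfold cb
      rw [← Finset.sum_add_distrib]
      refine Finset.sum_le_sum fun q _ => ?_
      rw [← Finset.sum_add_distrib]
      refine Finset.sum_le_sum fun l _ => ?_
      by_cases hq : q = walkB G l' h ∧ l = l0
      · obtain ⟨rfl, rfl⟩ := hq
        rw [if_neg (fun x => e2 x.1), if_pos ⟨rfl, rfl⟩, if_pos h2, zero_add]
      · rw [if_neg hq, add_zero]
        by_cases a1 : walkF G l q = h <;> by_cases a2 : avoidF G Z l q <;> simp [a1, a2]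
    refine le_trans (add_le_add le_rfl ?_) this
    rw [Finset.sum_eq_single_of_mem (walkB G l' h) (Finset.mem_univ _)
      (fun q _ hq => Finset.sum_eq_zero fun l _ => if_neg fun x => hq x.1),
      Finset.sum_eq_single_of_mem l0 ((mem_bl _ _).2 h1) (fun l _ hl => if_neg fun x => hl x.2),
      if_pos ⟨rfl, rfl⟩]
  have : (2 : ℝ) ^ D1 * (1 - 1 / 2 ^ D1) = 2 ^ D1 - 1 := by
    have : (2 : ℝ) ^ D1 ≠ 0 := by positivity
    field_simp
  rw [this]
  linarith

theorem cb_add (a c : ℕ) (h : WS V) : cb G Z (a + c) h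
    = ∑ q : WS V, cb G Z a q * ∑ l ∈ bl c, (if avoidF G Z l q ∧ walkF G l q = h then (1 : ℝ) else 0) := by
  set g : WS V → ℝ := fun q => ∑ l ∈ bl c, (if avoidF G Z l q ∧ walkF G l q = h then (1 : ℝ) else 0)
    with hg
  have h1 : cb G Z (a + c) h = ∑ q : WS V, ∑ l ∈ bl a,
      (if avoidF G Z l q then (1 : ℝ) else 0) * g (walkF G l q) := by
    unfold cb
    refine Finset.sum_congr rfl fun q _ => ?_
    rw [sum_bl_add]
    refine Finset.sum_congr rfl fun l _ => ?_
    rw [hg]
    simp only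
    rw [Finset.mul_sum]
    refine Finset.sum_congr rfl fun l' _ => ?_
    by_cases a1 : avoidF G Z l q <;> simp [avoidF_append, walkF_append, a1]
  have h2 : ∀ q : WS V, cb G Z a q * g q = ∑ q0 : WS V, ∑ l ∈ bl a,
      (if avoidF G Z l q0 ∧ walkF G l q0 = q then (1 : ℝ) else 0) * g q := by
    intro q
    unfold cb
    rw [Finset.sum_mul]
    refine Finset.sum_congr rfl fun q0 _ => ?_
    rw [Finset.sum_mul]
  have h3 : ∑ q : WS V, cb G Z a q * g q = ∑ q : WS V, ∑ q0 : WS V, ∑ l ∈ bl a,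
      (if avoidF G Z l q0 ∧ walkF G l q0 = q then (1 : ℝ) else 0) * g q :=
    Finset.sum_congr rfl fun q _ => h2 q
  rw [h1]
  refine Eq.trans ?_ (h3.trans Finset.sum_comm).symm
  refine Finset.sum_congr rfl fun q0 _ => ?_
  refine Eq.trans ?_ Finset.sum_comm
  refine Finset.sum_congr rfl fun l _ => ?_
  rw [Finset.sum_eq_single_of_mem (walkF G l q0) (Finset.mem_univ _)]
  · by_cases a1 : avoidF G Z l q0 <;> simp [a1]
  · intro q _ hq
    rw [if_neg fun x => hq x.2.symm, zero_mul]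

theorem cb_count (h1 : 1 ≤ D1)
    (hB : ∀ h : WS V, ∃ l : List Bool, l.length = D1 ∧ ¬ avoidB G Z l h) :
    ∀ (k : ℕ) (h : WS V), cb G Z k h ≤ 2 ^ k * (1 - 1 / 2 ^ D1) ^ (k / D1) := by
  intro k
  induction k using Nat.strong_induction_on with
  | _ k ih =>
    intro h
    rcases lt_or_ge k D1 with hb | hb
    · rw [Nat.div_eq_of_lt hb, pow_zero, mul_one]
      exact cb_le G Z k h
    · obtain ⟨c, rfl⟩ := Nat.exists_eq_add_of_le hb
      have hdiv : (D1 + c) / D1 = c / D1 + 1 := by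
        rw [Nat.add_div_left _ (by omega)]
      rw [hdiv, pow_succ, pow_add, cb_add]
      have hθ := theta_nonneg D1
      calc ∑ q : WS V, cb G Z D1 q *
            ∑ l ∈ bl c, (if avoidF G Z l q ∧ walkF G l q = h then (1 : ℝ) else 0)
          ≤ ∑ q : WS V, (2 ^ D1 * (1 - 1 / 2 ^ D1)) *
            ∑ l ∈ bl c, (if avoidF G Z l q ∧ walkF G l q = h then (1 : ℝ) else 0) := by
            refine Finset.sum_le_sum fun q _ => ?_
            refine mul_le_mul_of_nonneg_right (cb_block G Z D1 hB q) ?_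
            refine Finset.sum_nonneg fun l _ => ?_
            split_ifs <;> norm_num
        _ = (2 ^ D1 * (1 - 1 / 2 ^ D1)) * cb G Z c h := by rw [← Finset.mul_sum]; rfl
        _ ≤ (2 ^ D1 * (1 - 1 / 2 ^ D1)) * (2 ^ c * (1 - 1 / 2 ^ D1) ^ (c / D1)) := by
            refine mul_le_mul_of_nonneg_left (ih c (by omega) h) ?_
            positivity
        _ = 2 ^ D1 * 2 ^ c * ((1 - 1 / 2 ^ D1) ^ (c / D1) * (1 - 1 / 2 ^ D1)) := by ring

end fwdcount

theorem cnt (V : Type) [Fintype V] (G : CG V) (Z : V → Bool) (D1 : ℕ) (h1 : 1 ≤ D1)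
    (hF : ∀ h : WS V, ∃ l : List Bool, l.length = D1 ∧ ¬ avoidF G Z l h)
    (hB : ∀ h : WS V, ∃ l : List Bool, l.length = D1 ∧ ¬ avoidB G Z l h)
    (h : WS V) (k n : ℕ) (hkn : k ≤ n) :
    (((univ ×ˢ bl n).filter fun q : WS V × List Bool =>
      avoidF G Z q.2 q.1 ∧ walkF G (q.2.take k) q.1 = h).card : ℝ)
      ≤ 2 ^ n * (1 - 1 / 2 ^ D1) ^ (k / D1 + (n - k) / D1) := by
  obtain ⟨c, rfl⟩ := Nat.exists_eq_add_of_le hkn
  refine (card_sum (k + c) (fun q : WS V × List Bool =>
      avoidF G Z q.2 q.1 ∧ walkF G (q.2.take k) q.1 = h)).trans_le ?_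
  have hθ := theta_nonneg D1
  have e : ∑ q : WS V, ∑ l ∈ bl (k + c),
      (if avoidF G Z l q ∧ walkF G (l.take k) q = h then (1 : ℝ) else 0)
      = cb G Z k h * ∑ l' ∈ bl c, (if avoidF G Z l' h then (1 : ℝ) else 0) := by
    unfold cb
    rw [Finset.sum_mul]
    refine Finset.sum_congr rfl fun q _ => ?_
    rw [sum_bl_add, Finset.sum_mul]
    refine Finset.sum_congr rfl fun l hl => ?_
    rw [Finset.mul_sum]
    refine Finset.sum_congr rfl fun l' _ => ?_
    rw [mem_bl] at hl
    have e1 : (l ++ l').take k = l := by rw [← hl]; simp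
    rw [e1, avoidF_append]
    by_cases a1 : walkF G l q = h
    · by_cases a2 : avoidF G Z l q <;> simp [a1, a2]
    · simp [a1]
  simp only at e ⊢
  rw [e, show k + c - k = c by omega, pow_add, pow_add]
  calc cb G Z k h * ∑ l' ∈ bl c, (if avoidF G Z l' h then (1 : ℝ) else 0)
      ≤ (2 ^ k * (1 - 1 / 2 ^ D1) ^ (k / D1)) * (2 ^ c * (1 - 1 / 2 ^ D1) ^ (c / D1)) := by
        refine mul_le_mul (cb_count G Z D1 h1 hB k h) (fwd_count G Z D1 h1 hF c h) ?_ ?_
        · refine Finset.sum_nonneg fun l _ => ?_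
          split_ifs <;> norm_num
        · positivity
    _ = 2 ^ k * 2 ^ c * ((1 - 1 / 2 ^ D1) ^ (k / D1) * (1 - 1 / 2 ^ D1) ^ (c / D1)) := by ring

theorem st_CNT (_ : ST_FOL) : ST_CNT := by
  intro V _ G Z D1 h1 hF hB h k n hkn
  exact cnt V G Z D1 h1 hF hB h k n hkn

end Pool.Agent.Helper84.TC8
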