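import Pool.Agent.Helper86.TC8.Stmts

/-!
TC8, module FOL: lists of Booleans, followers, explored sets.
-/

set_option autoImplicit false

namespace Pool.Agent.Helper84.TC8

open Finset
open scoped Classical
open Pool.Agent.Helper86.TC8

theorem mem_bl (k : ℕ) : ∀ l : List Bool, l ∈ bl k ↔ l.length = k := by
  induction k with
  | zero => intro l; simp [bl]
  | succ k ih =>
    intro l
    cases l with
    | nil => simp [bl]
    | cons a t =>
      cases a <;> simp [bl, ih]

/-- sums over `bl (k+1)` -/
theorem sum_bl_succ {M : Type} [AddCommMonoid M] (k : ℕ) (F : List Bool → M) :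
    ∑ l ∈ bl (k + 1), F l = ∑ l ∈ bl k, (F (true :: l) + F (false :: l)) := by
  have hd : Disjoint ((bl k).image (List.cons true)) ((bl k).image (List.cons false)) := by
    rw [Finset.disjoint_left]
    intro l h1 h2
    rw [Finset.mem_image] at h1 h2
    obtain ⟨a, -, rfl⟩ := h1
    obtain ⟨b, -, hb⟩ := h2
    simp at hb
  show ∑ l ∈ (bl k).image (List.cons true) ∪ (bl k).image (List.cons false), F l = _
  rw [Finset.sum_union hd, Finset.sum_image, Finset.sum_image, ← Finset.sum_add_distrib]
  · intro a _ b _ h; simpa using h
  · intro a _ b _ h; simpa using h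

theorem card_bl (k : ℕ) : (bl k).card = 2 ^ k := by
  induction k with
  | zero => simp [bl]
  | succ k ih =>
    rw [Finset.card_eq_sum_ones, sum_bl_succ, Finset.sum_const, ih]
    simp [pow_succ]

variable {V : Type}

theorem stepW_inr {G : CG V} {Z P : V → Bool} {h h' : WS V} (e : stepW G Z P h = .inr h') :
    h' = fwd G (P h.2) h ∧ Z h'.2 = false := by
  obtain ⟨t, x⟩ := h
  unfold stepW at e
  cases t <;> simp only [Bool.false_eq_true, if_false, if_true] at e
  · split_ifs at e with h1
    · cases e
      refine ⟨?_, ?_⟩
      · simp [fwd]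
      · simpa using h1
  · split_ifs at e with h1 h2 h3 h4
    · cases e
      refine ⟨?_, ?_⟩
      · simp [fwd, h1]
      · simpa using h3
    · cases e
      refine ⟨?_, ?_⟩
      · simp only [Bool.not_eq_true] at h1
        simp [fwd, h1]
      · simpa using h4

theorem stepW_inl {G : CG V} {Z P : V → Bool} {h h' : WS V} (e : stepW G Z P h = .inl h') :
    h'.2 = h.2 ∨ h'.2 = G.nu h.2 := by
  obtain ⟨t, x⟩ := h
  unfold stepW at e
  cases t <;> simp only [Bool.false_eq_true, if_false, if_true] at e
  · split_ifs at e with h1
    · cases e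
      exact Or.inl rfl
  · split_ifs at e with h1 h2 h3 h4
    · cases e
      exact Or.inl rfl
    · cases e
      exact Or.inr rfl
    · cases e
      exact Or.inl rfl

theorem follows_avoidF (C : Ctx V) (P : V → Bool) : ∀ (l : List Bool) (h : WS V), C.Z h.2 = false →
    follows C.G C.Z P l h → avoidF C.G C.Z l h := by
  intro l
  induction l with
  | nil => intro h hz _; exact hz
  | cons β l ih =>
    intro h hz hf
    obtain ⟨h1, h2, h3⟩ := hf
    refine ⟨hz, ih _ (stepW_inr h2).2 h3⟩

theorem not_stops_iff (C : Ctx V) (P : V → Bool) : ∀ (k : ℕ) (h : WS V),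
    ¬ Stops C.G C.Z P k h ↔ ∃ l ∈ bl k, follows C.G C.Z P l h := by
  intro k
  induction k with
  | zero =>
    intro h
    simp [Stops, bl, follows]
  | succ k ih =>
    intro h
    rcases hs : stepW C.G C.Z P h with h' | h'
    · simp only [Stops, hs, not_true_eq_false, false_iff]
      rintro ⟨l, hl, hf⟩
      rw [mem_bl] at hl
      cases l with
      | nil => simp at hl
      | cons β l =>
        have := hf.2.1
        rw [hs] at this
        cases this
    · simp only [Stops, hs]
      rw [ih]
      have e := (stepW_inr hs).1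
      constructor
      · rintro ⟨l, hl, hf⟩
        rw [mem_bl] at hl
        refine ⟨P h.2 :: l, (mem_bl _ _).2 (by simp [hl]), rfl, ?_, ?_⟩
        · rw [hs, e]
        · rw [← e]; exact hf
      · rintro ⟨l, hl, hf⟩
        rw [mem_bl] at hl
        cases l with
        | nil => simp at hl
        | cons β l =>
          obtain ⟨h1, h2, h3⟩ := hf
          refine ⟨l, (mem_bl _ _).2 (by simpa using hl), ?_⟩
          rw [hs] at h2
          have := Sum.inr.inj h2
          rw [this]; exact h3

theorem follows_append (C : Ctx V) (P : V → Bool) : ∀ (l l' : List Bool) (h : WS V),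
    follows C.G C.Z P (l ++ l') h ↔
      follows C.G C.Z P l h ∧ follows C.G C.Z P l' (walkF C.G l h) := by
  intro l l'
  induction l with
  | nil => intro h; simp [follows, walkF]
  | cons β l ih =>
    intro h
    simp only [List.cons_append, follows, walkF, ih, and_assoc]

theorem rdW_touch (C : Ctx V) (P : V → Bool) : ∀ (k : ℕ) (h : WS V) (i : Idx V),
    i ∈ rdW C P k h → ∃ l : List Bool, l.length < k ∧
      follows C.G C.Z P l h ∧ Tch C i (walkF C.G l h).2 := by
  intro k
  induction k with
  | zero => intro h i hi; simp [rdW] at hi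
  | succ k ih =>
    intro h i hi
    rw [rdW, Finset.mem_union] at hi
    rcases hi with hi | hi
    · exact ⟨[], by simp, trivial, Or.inl hi⟩
    · rcases hs : stepW C.G C.Z P h with h' | h'
      · rw [hs] at hi
        simp only [Finset.mem_singleton] at hi
        refine ⟨[], by simp, trivial, Or.inr ?_⟩
        rcases stepW_inl hs with e | e
        · left; exact ⟨h'.1, by rw [hi, e]; rfl⟩
        · right; exact ⟨h'.1, by rw [hi, e]; rfl⟩
      · rw [hs] at hi
        simp only at hi
        obtain ⟨l, h1, h2, h3⟩ := ih h' i hi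
        have e := (stepW_inr hs).1
        refine ⟨P h.2 :: l, by simp; omega, ⟨rfl, by rw [hs, e], by rw [← e]; exact h2⟩, ?_⟩
        show Tch C i (walkF C.G l (fwd C.G (P h.2) h)).2
        rw [← e]; exact h3

theorem st_FOL : ST_FOL := by
  refine ⟨mem_bl, card_bl, fun V C P => ⟨follows_avoidF C P, not_stops_iff C P, follows_append C P,
    rdW_touch C P⟩⟩

end Pool.Agent.Helper84.TC8
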